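import Mathlib

set_option autoImplicit false

namespace Pool.Agent.Results.MP_96ce97_co.Counter

/-- The ring `F₂ ⊕ F₂^n` with `F₂^n` squaring to zero. -/
abbrev Rg (n : ℕ) := TrivSqZeroExt (ZMod 2) (Fin n → ZMod 2)

instance (n : ℕ) : Finite (Rg n) := inferInstanceAs (Finite (ZMod 2 × (Fin n → ZMod 2)))

lemma card_R (n : ℕ) : Nat.card (Rg n) = 2 * 2 ^ n := by
  rw [show Nat.card (Rg n) = Nat.card (ZMod 2 × (Fin n → ZMod 2)) from rfl]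
  simp

theorem result : ¬ (∀ α : ℝ, 0 < α → ∃ N k : ℕ, ∀ (R : Type) [CommRing R] [Finite R],
    N ≤ Nat.card R → ∀ E : Set R, α * Nat.card R ≤ E.ncard →
      ∃ R₀ : NonUnitalSubring R,
        (∀ z ∈ R₀, ∃ x ∈ E, ∃ y ∈ E, ∃ u ∈ E, ∃ v ∈ E, z = (x - y) * (u - v)) ∧
        (Nat.card R : ℝ) / Nat.card R₀ ≤ k) := by
  intro h
  obtain ⟨N, k, h⟩ := h (1 / 2) (by norm_num)
  have hn : N + k < 2 ^ (N + k) := Nat.lt_two_pow_self
  obtain ⟨R₀, h1, h2⟩ := h (Rg (N + k)) (by rw [card_R]; omega)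
    (Set.range TrivSqZeroExt.inr) (by
      rw [card_R, Set.ncard_range_of_injective TrivSqZeroExt.inr_injective]
      simp)
  have h0 : ∀ z ∈ R₀, z = 0 := by
    intro z hz
    obtain ⟨_, ⟨x, rfl⟩, _, ⟨y, rfl⟩, _, ⟨u, rfl⟩, _, ⟨v, rfl⟩, rfl⟩ := h1 z hz
    rw [← TrivSqZeroExt.inr_sub, ← TrivSqZeroExt.inr_sub, TrivSqZeroExt.inr_mul_inr]
  have hc : Nat.card R₀ = 1 := by
    rw [Nat.card_eq_one_iff_unique]
    exact ⟨⟨fun a b => Subtype.ext ((h0 _ a.2).trans (h0 _ b.2).symm)⟩, ⟨0⟩⟩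
  rw [hc, card_R, Nat.cast_one, div_one] at h2
  have : 2 * 2 ^ (N + k) ≤ k := by exact_mod_cast h2
  omega

end Pool.Agent.Results.MP_96ce97_co.Counter
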